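import Pool.Agent.H528R2.QDefs
import Pool.Agent.NPC.Sat

/-!
# One quartic equation over `ℚ`, written as a list of terms

A polynomial with integer coefficients is coded by the list of its terms; a term is a coefficient
`(a, b)`, meaning `a - b`, together with the list of the exponents of the variables `x 0, x 1, …`.
-/

namespace Pool.Agent.H438R3.HQ

open Pool.Agent.NPC Pool.Agent.H528R2

/-- codes of polynomials -/
abbrev PolyCode : Type := List ((ℕ × ℕ) × List ℕ)

/-- value of a term at a rational point -/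
def termVal (x : ℕ → ℚ) (t : (ℕ × ℕ) × List ℕ) : ℚ :=
  ((t.1.1 : ℚ) - (t.1.2 : ℚ)) * ∏ i ∈ Finset.range t.2.length, x i ^ t.2.getD i 0

/-- the coded polynomial has a rational zero -/
def HasRatZero (l : PolyCode) : Prop := ∃ x : ℕ → ℚ, (l.map (termVal x)).sum = 0

/-- the coded polynomial has total degree at most `4` -/
def Quartic (l : PolyCode) : Prop := ∀ t ∈ l, t.2.sum ≤ 4

/-- the exponents, for `N` variables, of the product of the variables in `m` -/
def mono (N : ℕ) (m : List ℕ) : List ℕ :=
  (List.range N).map fun v => (m.filter fun u => decide (u = v)).length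

theorem mono_length (N : ℕ) (m : List ℕ) : (mono N m).length = N := by simp [mono]

theorem mono_getD (N : ℕ) (m : List ℕ) (i : ℕ) (hi : i < N) :
    (mono N m).getD i 0 = (m.filter fun u => decide (u = i)).length := by
  rw [List.getD_eq_getElem _ _ (by rw [mono_length]; exact hi)]
  simp [mono]

theorem mono_val (x : ℕ → ℚ) (N : ℕ) (m : List ℕ) (hm : ∀ u ∈ m, u < N) :
    ∏ i ∈ Finset.range (mono N m).length, x i ^ (mono N m).getD i 0 = (m.map x).prod := by
  rw [mono_length]
  have h1 : ∏ i ∈ Finset.range N, x i ^ (mono N m).getD i 0 =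
      ∏ i ∈ Finset.range N, x i ^ (m.filter fun u => decide (u = i)).length :=
    Finset.prod_congr rfl fun i hi => by rw [mono_getD N m i (Finset.mem_range.1 hi)]
  rw [h1]
  clear h1
  induction m with
  | nil => simp
  | cons u m ih =>
    have hu : u < N := hm u (List.mem_cons_self)
    have ih' := ih fun v hv => hm v (List.mem_cons_of_mem _ hv)
    rw [List.map_cons, List.prod_cons, ← ih']
    have h2 : ∀ i ∈ Finset.range N, x i ^ ((u :: m).filter fun u => decide (u = i)).length =
        (if i = u then x u else 1) * x i ^ (m.filter fun u => decide (u = i)).length := by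
      intro i _
      by_cases h : u = i
      · subst h
        simp [pow_succ, mul_comm]
      · rw [if_neg (fun h' => h h'.symm), List.filter_cons_of_neg (by simpa using h), one_mul]
    rw [Finset.prod_congr rfl h2, Finset.prod_mul_distrib, Finset.prod_ite_eq', if_pos
      (Finset.mem_range.2 hu)]

theorem mono_sum (N : ℕ) (m : List ℕ) : (mono N m).sum ≤ m.length := by
  induction m with
  | nil =>
    rw [mono]
    simp
  | cons u m ih =>
    have h : ∀ l : List ℕ, l.Nodup →
        (l.map fun v => ((u :: m).filter fun u => decide (u = v)).length).sum ≤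
          (l.map fun v => (m.filter fun u => decide (u = v)).length).sum + 1 := by
      intro l
      induction l with
      | nil => intro _; simp
      | cons a l ihl =>
        intro hl
        rw [List.nodup_cons] at hl
        have ihl' := ihl hl.2
        rw [List.map_cons, List.map_cons, List.sum_cons, List.sum_cons]
        by_cases hua : u = a
        · subst hua
          have h3 : (l.map fun v => ((u :: m).filter fun u => decide (u = v)).length) =
              (l.map fun v => (m.filter fun u => decide (u = v)).length) := by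
            refine List.map_congr_left fun v hv => ?_
            rw [List.filter_cons_of_neg]
            simp only [decide_eq_true_eq]
            rintro rfl
            exact hl.1 hv
          rw [h3, List.filter_cons_of_pos (by simp), List.length_cons]
          omega
        · rw [List.filter_cons_of_neg (by simpa using hua)]
          omega
    have h2 := h (List.range N) List.nodup_range
    simp only [mono] at ih ⊢
    rw [List.length_cons]
    omega

/-- a term with coefficient `a - b`, the product of the variables in `m` -/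
def mk (N : ℕ) (a b : ℕ) (m : List ℕ) : (ℕ × ℕ) × List ℕ := ((a, b), mono N m)

theorem mk_val (x : ℕ → ℚ) (N a b : ℕ) (m : List ℕ) (hm : ∀ u ∈ m, u < N) :
    termVal x (mk N a b m) = ((a : ℚ) - b) * (m.map x).prod := by
  rw [termVal, mk, mono_val x N m hm]

/-- the terms of the square of `x i - 1`, `x i + x j - x k`, `x i * x j - x k`
(for the tags `0`, `1`, other) -/
def sqT (N e i j k : ℕ) : PolyCode :=
  if e = 0 then [mk N 1 0 [i, i], mk N 0 2 [i], mk N 1 0 []]
  else if e = 1 then [mk N 1 0 [i, i], mk N 1 0 [j, j], mk N 1 0 [k, k], mk N 2 0 [i, j],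
    mk N 0 2 [i, k], mk N 0 2 [j, k]]
  else [mk N 1 0 [i, i, j, j], mk N 0 2 [i, j, k], mk N 1 0 [k, k]]

/-- the value of the square -/
def sqV (x : ℕ → ℚ) (e i j k : ℕ) : ℚ :=
  if e = 0 then (x i - 1) ^ 2 else if e = 1 then (x i + x j - x k) ^ 2 else (x i * x j - x k) ^ 2

theorem sqT_val (x : ℕ → ℚ) (N e i j k : ℕ) (hi : i < N) (hj : j < N) (hk : k < N) :
    ((sqT N e i j k).map (termVal x)).sum = sqV x e i j k := by
  unfold sqT sqV
  split_ifs with h0 h1
  · simp only [List.map_cons, List.map_nil, List.sum_cons, List.sum_nil]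
    rw [mk_val, mk_val, mk_val]
    · simp only [List.map_cons, List.map_nil, List.prod_cons, List.prod_nil, Nat.cast_one,
        Nat.cast_zero, Nat.cast_ofNat]
      ring
    all_goals
      intro u hu
      simp only [List.mem_cons, List.not_mem_nil, or_false] at hu
      try omega
  · simp only [List.map_cons, List.map_nil, List.sum_cons, List.sum_nil]
    rw [mk_val, mk_val, mk_val, mk_val, mk_val, mk_val]
    · simp only [List.map_cons, List.map_nil, List.prod_cons, List.prod_nil, Nat.cast_one,
        Nat.cast_zero, Nat.cast_ofNat]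
      ring
    all_goals
      intro u hu
      simp only [List.mem_cons, List.not_mem_nil, or_false] at hu
      try omega
  · simp only [List.map_cons, List.map_nil, List.sum_cons, List.sum_nil]
    rw [mk_val, mk_val, mk_val]
    · simp only [List.map_cons, List.map_nil, List.prod_cons, List.prod_nil, Nat.cast_one,
        Nat.cast_zero, Nat.cast_ofNat]
      ring
    all_goals
      intro u hu
      simp only [List.mem_cons, List.not_mem_nil, or_false] at hu
      try omega

theorem sqT_quartic (N e i j k : ℕ) : Quartic (sqT N e i j k) := by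
  intro t ht
  have h : ∀ a b (m : List ℕ), m.length ≤ 4 → t = mk N a b m → t.2.sum ≤ 4 := by
    intro a b m hm ht
    rw [ht]
    exact (mono_sum N m).trans hm
  unfold sqT at ht
  split_ifs at ht
  · simp only [List.mem_cons, List.not_mem_nil, or_false] at ht
    rcases ht with ht | ht | ht <;> exact h _ _ _ (by simp) ht
  · simp only [List.mem_cons, List.not_mem_nil, or_false] at ht
    rcases ht with ht | ht | ht | ht | ht | ht <;> exact h _ _ _ (by simp) ht
  · simp only [List.mem_cons, List.not_mem_nil, or_false] at ht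
    rcases ht with ht | ht | ht <;> exact h _ _ _ (by simp) ht

/-- the variables of a system, with repetitions -/
def vs (S : List ER.Con) : List ℕ := S.flatMap fun c => [c.code.2.1, c.code.2.2.1, c.code.2.2.2]

/-- the new number of a variable -/
noncomputable def nr (S : List ER.Con) (i : ℕ) : ℕ := index (vs S) i

/-- the quartic polynomial of a system -/
noncomputable def quarticOf (S : List ER.Con) : PolyCode :=
  S.flatMap fun c => sqT (vs S).length c.code.1 (nr S c.code.2.1) (nr S c.code.2.2.1)
    (nr S c.code.2.2.2)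

theorem mem_vs {S : List ER.Con} {c : ER.Con} (hc : c ∈ S) :
    c.code.2.1 ∈ vs S ∧ c.code.2.2.1 ∈ vs S ∧ c.code.2.2.2 ∈ vs S := by
  simp only [vs, List.mem_flatMap]
  exact ⟨⟨c, hc, by simp⟩, ⟨c, hc, by simp⟩, ⟨c, hc, by simp⟩⟩

theorem nr_lt {S : List ER.Con} {i : ℕ} (hi : i ∈ vs S) : nr S i < (vs S).length := by
  have h := getElem?_index hi
  unfold nr
  by_contra hc
  rw [List.getElem?_eq_none (not_lt.1 hc)] at h
  exact absurd h (by simp)

theorem getD_nr {S : List ER.Con} {i : ℕ} (hi : i ∈ vs S) : (vs S).getD (nr S i) 0 = i := by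
  have h := getElem?_index hi
  rw [List.getD_eq_getElem?_getD]
  unfold nr
  rw [h]
  rfl

theorem quarticOf_quartic (S : List ER.Con) : Quartic (quarticOf S) := by
  intro t ht
  rw [quarticOf, List.mem_flatMap] at ht
  obtain ⟨c, _, ht⟩ := ht
  exact sqT_quartic _ _ _ _ _ t ht

theorem quarticOf_val (x : ℕ → ℚ) (S : List ER.Con) : ((quarticOf S).map (termVal x)).sum =
    (S.map fun c => sqV x c.code.1 (nr S c.code.2.1) (nr S c.code.2.2.1)
      (nr S c.code.2.2.2)).sum := by
  have key : ∀ (l : List ER.Con) (F : ER.Con → PolyCode),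
      ((l.flatMap F).map (termVal x)).sum = (l.map fun c => ((F c).map (termVal x)).sum).sum := by
    intro l F
    induction l with
    | nil => simp
    | cons c l ih => simp [List.flatMap_cons, ih]
  rw [quarticOf, key]
  congr 1
  refine List.map_congr_left fun c hc => ?_
  obtain ⟨h1, h2, h3⟩ := mem_vs hc
  exact sqT_val x _ _ _ _ _ (nr_lt h1) (nr_lt h2) (nr_lt h3)

theorem sqV_nonneg (x : ℕ → ℚ) (e i j k : ℕ) : 0 ≤ sqV x e i j k := by
  unfold sqV
  split_ifs <;> positivity

theorem sqV_zero (x v : ℕ → ℚ) (S : List ER.Con) (c : ER.Con) (hc : c ∈ S)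
    (hv : ∀ i ∈ vs S, x (nr S i) = v i) :
    sqV x c.code.1 (nr S c.code.2.1) (nr S c.code.2.2.1) (nr S c.code.2.2.2) = 0 ↔
      HoldsQ v c := by
  obtain ⟨h1, h2, h3⟩ := mem_vs hc
  unfold sqV
  rw [hv _ h1, hv _ h2, hv _ h3]
  cases c with
  | one i =>
    simp only [ER.Con.code, if_true, HoldsQ]
    rw [pow_eq_zero_iff (by norm_num), sub_eq_zero]
  | add i j k =>
    simp only [ER.Con.code, HoldsQ]
    rw [if_neg (by norm_num), if_pos trivial, pow_eq_zero_iff (by norm_num), sub_eq_zero]
  | mul i j k =>
    simp only [ER.Con.code, HoldsQ]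
    rw [if_neg (by norm_num), if_neg (by norm_num), pow_eq_zero_iff (by norm_num), sub_eq_zero]

theorem sum_zero_iff {α : Type} (l : List α) (f : α → ℚ) (hf : ∀ a, 0 ≤ f a) :
    (l.map f).sum = 0 ↔ ∀ a ∈ l, f a = 0 := by
  induction l with
  | nil => simp
  | cons a l ih =>
    have h1 : 0 ≤ (l.map f).sum := List.sum_nonneg fun r hr => by
      rw [List.mem_map] at hr
      obtain ⟨b, _, rfl⟩ := hr
      exact hf b
    rw [List.map_cons, List.sum_cons, List.forall_mem_cons, ← ih]
    constructor
    · intro h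
      have h2 := hf a
      constructor <;> linarith
    · rintro ⟨h2, h3⟩
      rw [h2, h3, add_zero]

/-- **The quartic equation of a system.** -/
theorem qsat_iff (S : List ER.Con) : QSat S ↔ HasRatZero (quarticOf S) := by
  constructor
  · rintro ⟨v, hv⟩
    refine ⟨fun n => v ((vs S).getD n 0), ?_⟩
    rw [quarticOf_val, sum_zero_iff _ _ fun c => sqV_nonneg _ _ _ _ _]
    intro c hc
    refine (sqV_zero _ v S c hc fun i hi => ?_).2 (hv c hc)
    rw [getD_nr hi]
  · rintro ⟨x, hx⟩
    rw [quarticOf_val, sum_zero_iff _ _ fun c => sqV_nonneg _ _ _ _ _] at hx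
    exact ⟨fun i => x (nr S i), fun c hc => (sqV_zero x _ S c hc fun i _ => rfl).1 (hx c hc)⟩

section Time

variable {α : Type} [TEnc α]

theorem poly_mono {N : α → ℕ} {m : α → List ℕ} (hN : UPoly N) (hm : NPC.Poly m) :
    NPC.Poly (fun a => mono (N a) (m a)) := by
  have h1 : NPC.Poly (fun p : α × ℕ => (m p.1).filter fun u => decide (u = p.2)) :=
    NPC.Poly.filter (p := fun (p : α × ℕ) u => decide (u = p.2)) (hm.comp (NPC.Poly.fst NPC.Poly.id))
      (NPC.Poly.decide_eq (NPC.Poly.snd NPC.Poly.id) (NPC.Poly.snd (NPC.Poly.fst NPC.Poly.id)))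
  exact NPC.Poly.map (F := fun a v => ((m a).filter fun u => decide (u = v)).length) hN.range
    (NPC.Poly.length h1)

theorem poly_mk {N : α → ℕ} {m : α → List ℕ} (a b : ℕ) (hN : UPoly N) (hm : NPC.Poly m) :
    NPC.Poly (fun x => mk (N x) a b (m x)) :=
  NPC.Poly.pair (NPC.Poly.const (a, b)) (poly_mono hN hm)

theorem poly_sqT {N e i j k : α → ℕ} (hN : UPoly N) (he : NPC.Poly e) (hi : NPC.Poly i)
    (hj : NPC.Poly j) (hk : NPC.Poly k) :
    NPC.Poly (fun a => sqT (N a) (e a) (i a) (j a) (k a)) := by
  have n0 : NPC.Poly (fun _ : α => ([] : List ℕ)) := NPC.Poly.const _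
  have e0 : NPC.Poly (fun _ : α => ([] : PolyCode)) := NPC.Poly.const _
  refine NPC.Poly.ite (NPC.Poly.decide_eq he (NPC.Poly.const 0)) ?_
    (NPC.Poly.ite (NPC.Poly.decide_eq he (NPC.Poly.const 1)) ?_ ?_)
  · exact (poly_mk 1 0 hN (hi.cons (hi.cons n0))).cons ((poly_mk 0 2 hN (hi.cons n0)).cons
      ((poly_mk 1 0 hN n0).cons e0))
  · exact (poly_mk 1 0 hN (hi.cons (hi.cons n0))).cons ((poly_mk 1 0 hN (hj.cons (hj.cons n0))).cons
      ((poly_mk 1 0 hN (hk.cons (hk.cons n0))).cons ((poly_mk 2 0 hN (hi.cons (hj.cons n0))).cons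
      ((poly_mk 0 2 hN (hi.cons (hk.cons n0))).cons ((poly_mk 0 2 hN (hj.cons (hk.cons n0))).cons
      e0)))))
  · exact (poly_mk 1 0 hN (hi.cons (hi.cons (hj.cons (hj.cons n0))))).cons
      ((poly_mk 0 2 hN (hi.cons (hj.cons (hk.cons n0)))).cons
      ((poly_mk 1 0 hN (hk.cons (hk.cons n0))).cons e0))

theorem poly_vs {S : α → List ER.Con} (hS : NPC.Poly S) : NPC.Poly (fun a => vs (S a)) := by
  have hc : NPC.Poly (fun p : α × ER.Con => p.2.code) := ER.poly_con_code (NPC.Poly.snd NPC.Poly.id)
  exact NPC.Poly.flatMap (F := fun _ (c : ER.Con) => [c.code.2.1, c.code.2.2.1, c.code.2.2.2]) hS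
    ((NPC.Poly.fst (NPC.Poly.snd hc)).cons ((NPC.Poly.fst (NPC.Poly.snd (NPC.Poly.snd hc))).cons
      ((NPC.Poly.snd (NPC.Poly.snd (NPC.Poly.snd hc))).cons (NPC.Poly.const []))))

theorem poly_quarticOf : NPC.Poly quarticOf := by
  have hc : NPC.Poly (fun p : List ER.Con × ER.Con => p.2.code) :=
    ER.poly_con_code (NPC.Poly.snd NPC.Poly.id)
  have hv : NPC.Poly (fun p : List ER.Con × ER.Con => vs p.1) :=
    poly_vs (NPC.Poly.fst NPC.Poly.id)
  have h1 : NPC.Poly (fun p : List ER.Con × ER.Con => p.2.code.1) := NPC.Poly.fst hc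
  have h2 : NPC.Poly (fun p : List ER.Con × ER.Con => p.2.code.2.1) :=
    NPC.Poly.fst (NPC.Poly.snd hc)
  have h3 : NPC.Poly (fun p : List ER.Con × ER.Con => p.2.code.2.2.1) :=
    NPC.Poly.fst (NPC.Poly.snd (NPC.Poly.snd hc))
  have h4 : NPC.Poly (fun p : List ER.Con × ER.Con => p.2.code.2.2.2) :=
    NPC.Poly.snd (NPC.Poly.snd (NPC.Poly.snd hc))
  exact NPC.Poly.flatMap (F := fun S (c : ER.Con) => sqT (vs S).length c.code.1
    (nr S c.code.2.1) (nr S c.code.2.2.1) (nr S c.code.2.2.2)) NPC.Poly.id
    (poly_sqT (UPoly.length hv) h1 (Poly.index hv h2) (Poly.index hv h3) (Poly.index hv h4))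

end Time

end Pool.Agent.H438R3.HQ
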